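import Pool.Agent.Q190.Ce.MomA

/-!
# Moments: optional stopping
-/

set_option autoImplicit false

namespace Pool.Agent.Q190.Ce

open MeasureTheory ProbabilityTheory Filter Topology Finset
open _root_.Q294.Cookie (suc fai fai_zero fai_succ suc_add_fai)
open Pool.Agent.Q294.Ce

noncomputable section

/-! ### deterministic facts -/

section det

variable {k : ℕ} {f : ℕ → Bool}

lemma NN_mem (h : ∃ j, k ≤ fai f j) : k ≤ fai f (NN k f) :=
  Nat.sInf_mem (s := {j | k ≤ fai f j}) h

lemma lt_NN {j : ℕ} (hj : j < NN k f) : fai f j < k := by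
  have := Nat.notMem_of_lt_sInf (s := {j | k ≤ fai f j}) hj
  simpa using this

lemma fai_NN (h : ∃ j, k ≤ fai f j) : fai f (NN k f) = k := by
  refine le_antisymm ?_ (NN_mem h)
  rcases hN : NN k f with _ | n
  · rw [fai_zero]; exact Nat.zero_le _
  · have h1 := lt_NN (k := k) (f := f) (j := n) (by omega)
    rw [fai_succ]
    split_ifs <;> omega

lemma le_NN (h : ∃ j, k ≤ fai f j) : k ≤ NN k f := by
  have h1 := suc_add_fai f (NN k f)
  rw [fai_NN h] at h1
  omega

lemma TT_le (m : ℕ) (hm : m ≤ NN k f) : TT k m f = m := by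
  rcases m with _ | m
  · simp [TT]
  · exact TT_of_lt (lt_NN (by omega))

lemma TT_ge (h : ∃ j, k ≤ fai f j) {m : ℕ} (hm : NN k f ≤ m) : TT k m f = NN k f := by
  induction m, hm using Nat.le_induction with
  | base => exact TT_le _ le_rfl
  | succ m hm ih =>
    rw [TT_succ, ih]
    have : ¬ fai f m < k := by
      have h1 := fai_mono f hm
      rw [fai_NN h] at h1
      omega
    unfold II
    rw [if_neg this, add_zero]

lemma TT_le_NN (h : ∃ j, k ≤ fai f j) (m : ℕ) : TT k m f ≤ NN k f := by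
  rcases le_total m (NN k f) with h1 | h1
  · rw [TT_le m h1]; exact_mod_cast h1
  · rw [TT_ge h h1]

variable {p : ℕ → ℝ} {κ Δ : ℝ}

/-- the limit -/
def Ai (p : ℕ → ℝ) (k : ℕ) (f : ℕ → Bool) : ℝ := (NN k f : ℝ) - 2 * k - dr p (NN k f)

lemma AA_ge (h : ∃ j, k ≤ fai f j) {m : ℕ} (hm : NN k f ≤ m) : AA p k m f = Ai p k f := by
  obtain ⟨t, -, h2, h3⟩ := AA_eq p k m f
  rw [TT_ge h hm] at h2 h3
  have h4 : NN k f = t := by exact_mod_cast h2
  have h5 : k ≤ fai f m := (NN_mem h).trans (fai_mono f hm)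
  rw [h3, min_eq_right h5, ← h4]
  rfl

lemma abs_AA_le (hg : Good p κ Δ) (h : ∃ j, k ≤ fai f j) (m : ℕ) :
    |AA p k m f| ≤ NN k f + 2 * k + Δ := by
  obtain ⟨t, -, h2, h3⟩ := AA_eq p k m f
  have h4 := TT_le_NN h m
  have h5 := TT_nonneg k m f
  have h6 := hg.dr_nonneg t
  have h7 := hg.dr_le t
  have h8 : ((min (fai f m) k : ℕ) : ℝ) ≤ k := by exact_mod_cast min_le_right _ _
  have h9 : (0 : ℝ) ≤ ((min (fai f m) k : ℕ) : ℝ) := Nat.cast_nonneg _
  rw [h3, abs_le]
  constructor <;> linarith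

lemma TT_le_AA (hg : Good p κ Δ) (k m : ℕ) (f : ℕ → Bool) :
    TT k m f ≤ AA p k m f + (2 * k + Δ) := by
  obtain ⟨t, -, h2, h3⟩ := AA_eq p k m f
  have h7 := hg.dr_le t
  have h8 : ((min (fai f m) k : ℕ) : ℝ) ≤ k := by exact_mod_cast min_le_right _ _
  rw [h3]
  linarith

end det

variable {p : ℕ → ℝ} {κ Δ : ℝ}

lemma int_TT_le (hg : Good p κ Δ) (k m : ℕ) : ∫ f, TT k m f ∂(coins p) ≤ 2 * k + Δ := by
  calc ∫ f, TT k m f ∂(coins p) ≤ ∫ f, (AA p k m f + (2 * k + Δ)) ∂(coins p) := by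
        refine integral_mono ((dep_TT k m).integrable p)
          (((dep_AA p k m).integrable p).add (integrable_const _)) fun f => ?_
        exact TT_le_AA hg k m f
    _ = 2 * k + Δ := by
        rw [integral_add ((dep_AA p k m).integrable p) (integrable_const _), mean_AA hg,
          integral_const]
        simp

lemma lint_sup (hg : Good p κ Δ) (k : ℕ) :
    ∫⁻ f, ⨆ m, ENNReal.ofReal (TT k m f) ∂(coins p) ≤ ENNReal.ofReal (2 * k + Δ) := by
  have h0 := lintegral_iSup (μ := coins p) (f := fun m f => ENNReal.ofReal (TT k m f))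
    (fun m => ENNReal.measurable_ofReal.comp (dep_TT k m).measurable)
    (fun m n hmn f => ENNReal.ofReal_le_ofReal (TT_mono k f hmn))
  rw [h0]
  refine iSup_le fun m => ?_
  rw [← ofReal_integral_eq_lintegral_ofReal ((dep_TT k m).integrable p)
    (ae_of_all _ fun f => TT_nonneg k m f)]
  exact ENNReal.ofReal_le_ofReal (int_TT_le hg k m)

lemma ae_fin (hg : Good p κ Δ) (k : ℕ) : ∀ᵐ f ∂(coins p), ∃ j, k ≤ fai f j := by
  have hm : Measurable (fun f => ⨆ m, ENNReal.ofReal (TT k m f)) :=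
    Measurable.iSup fun m => ENNReal.measurable_ofReal.comp (dep_TT k m).measurable
  have h1 := ae_lt_top hm (ne_top_of_le_ne_top ENNReal.ofReal_ne_top (lint_sup hg k))
  filter_upwards [h1] with f hf
  by_contra hcon
  push Not at hcon
  obtain ⟨n, hn⟩ := ENNReal.exists_nat_gt hf.ne
  have h2 : ENNReal.ofReal (TT k (n + 1) f) ≤ ⨆ m, ENNReal.ofReal (TT k m f) :=
    le_iSup (fun m => ENNReal.ofReal (TT k m f)) (n + 1)
  rw [TT_of_lt (hcon n), ENNReal.ofReal_natCast] at h2
  have h3 := h2.trans_lt hn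
  have h4 : n + 1 < n := by exact_mod_cast h3
  omega

lemma meas_fai (j : ℕ) : Measurable fun f : ℕ → Bool => fai f j := by
  have h1 : Dep j (fun f => (fai f j : ℝ)) := fun f g h => by
    show (fai f j : ℝ) = fai g j
    rw [fai_congr h]
  refine measurable_to_countable' fun n => ?_
  have h2 : (fun f : ℕ → Bool => fai f j) ⁻¹' {n} = (fun f => (fai f j : ℝ)) ⁻¹' {(n : ℝ)} := by
    ext f
    simp
  rw [h2]
  exact h1.measurable (measurableSet_singleton _)

lemma meas_NN (k : ℕ) : Measurable (NN k) := by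
  have h1 : ∀ n, MeasurableSet {f : ℕ → Bool | NN k f = n + 1} := by
    intro n
    have h2 : {f : ℕ → Bool | NN k f = n + 1} =
        {f | k ≤ fai f (n + 1)} ∩ ⋂ j ∈ Finset.range (n + 1), {f | fai f j < k} := by
      ext f
      simp only [Set.mem_ofPred_eq, Set.mem_inter_iff, Set.mem_iInter, Finset.mem_range]
      constructor
      · intro h
        refine ⟨?_, fun j hj => lt_NN (by omega)⟩
        by_contra hcon
        have h3 : {j | k ≤ fai f j}.Nonempty := by
          by_contra he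
          rw [Set.not_nonempty_iff_eq_empty] at he
          unfold NN at h
          rw [he, Nat.sInf_empty] at h
          omega
        have h4 := Nat.sInf_mem h3
        apply hcon
        have h5 : sInf {j | k ≤ fai f j} = n + 1 := h
        rw [h5] at h4
        exact h4
      · rintro ⟨h3, h4⟩
        apply le_antisymm
        · exact Nat.sInf_le h3
        · by_contra hcon
          have h5 := NN_mem ⟨n + 1, h3⟩
          have h6 := h4 (NN k f) (by omega)
          omega
    rw [h2]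
    refine (meas_fai (n + 1) measurableSet_Ici).inter ?_
    exact Finset.measurableSet_biInter _ fun j _ => meas_fai j measurableSet_Iio
  refine measurable_to_countable' fun n => ?_
  rcases n with _ | n
  · have h2 : NN k ⁻¹' {0} = (⋃ n, {f : ℕ → Bool | NN k f = n + 1})ᶜ := by
      ext f
      simp only [Set.mem_preimage, Set.mem_singleton_iff, Set.mem_compl_iff, Set.mem_iUnion,
        Set.mem_ofPred_eq, not_exists]
      constructor
      · intro h n; omega
      · intro h
        by_contra hne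
        exact h (NN k f - 1) (by omega)
    rw [h2]
    exact (MeasurableSet.iUnion h1).compl
  · exact h1 n

lemma meas_NN' (k : ℕ) : Measurable (fun f => (NN k f : ℝ)) :=
  (Measurable.of_discrete (f := fun n : ℕ => (n : ℝ))).comp (meas_NN k)

lemma lint_NN (hg : Good p κ Δ) (k : ℕ) :
    ∫⁻ f, ENNReal.ofReal (NN k f) ∂(coins p) ≤ ENNReal.ofReal (2 * k + Δ) := by
  refine (lintegral_mono_ae ?_).trans (lint_sup hg k)
  filter_upwards [ae_fin hg k] with f hf
  calc ENNReal.ofReal (NN k f) = ENNReal.ofReal (TT k (NN k f) f) := by rw [TT_le _ le_rfl]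
    _ ≤ _ := le_iSup (fun m => ENNReal.ofReal (TT k m f)) (NN k f)

lemma int_NN (hg : Good p κ Δ) (k : ℕ) : Integrable (fun f => (NN k f : ℝ)) (coins p) := by
  refine ⟨(meas_NN' k).aestronglyMeasurable, ?_⟩
  rw [hasFiniteIntegral_iff_ofReal (ae_of_all _ fun f => Nat.cast_nonneg _)]
  exact (lint_NN hg k).trans_lt ENNReal.ofReal_lt_top

lemma meas_dr (p : ℕ → ℝ) (k : ℕ) : Measurable (fun f => dr p (NN k f)) :=
  (Measurable.of_discrete (f := fun n : ℕ => dr p n)).comp (meas_NN k)

lemma int_dr (hg : Good p κ Δ) (k : ℕ) : Integrable (fun f => dr p (NN k f)) (coins p) := by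
  refine Integrable.of_bound (meas_dr p k).aestronglyMeasurable Δ (ae_of_all _ fun f => ?_)
  rw [Real.norm_eq_abs, abs_of_nonneg (hg.dr_nonneg _)]
  exact hg.dr_le _

lemma meas_Ai (p : ℕ → ℝ) (k : ℕ) : Measurable (Ai p k) :=
  ((meas_NN' k).sub_const _).sub (meas_dr p k)

lemma int_Ai (hg : Good p κ Δ) (k : ℕ) : Integrable (Ai p k) (coins p) :=
  ((int_NN hg k).sub (integrable_const _)).sub (int_dr hg k)

/-- convergence with a bounded weight -/
lemma lim_AA (hg : Good p κ Δ) (k l : ℕ) {Y : (ℕ → Bool) → ℝ} (hY : Dep l Y) :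
    Tendsto (fun m => ∫ f, Y f * AA p k m f ∂(coins p)) atTop (𝓝 (∫ f, Y f * Ai p k f ∂(coins p))) := by
  obtain ⟨C, hC⟩ := hY.bdd
  refine tendsto_integral_of_dominated_convergence (fun f => C * (NN k f + 2 * k + Δ)) ?_ ?_ ?_ ?_
  · intro m
    exact (hY.measurable.mul (dep_AA p k m).measurable).aestronglyMeasurable
  · exact (((int_NN hg k).add (integrable_const _)).add (integrable_const _)).const_mul C
  · intro m
    filter_upwards [ae_fin hg k] with f hf
    rw [norm_mul, Real.norm_eq_abs, Real.norm_eq_abs]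
    have h1 := abs_AA_le hg hf m
    have h2 := hC f
    exact mul_le_mul h2 h1 (abs_nonneg _) ((abs_nonneg _).trans h2)
  · filter_upwards [ae_fin hg k] with f hf
    apply tendsto_const_nhds.congr'
    filter_upwards [eventually_ge_atTop (NN k f)] with m hm
    rw [AA_ge hf hm]

lemma mean_Ai (hg : Good p κ Δ) (k : ℕ) : ∫ f, Ai p k f ∂(coins p) = 0 := by
  have h1 := lim_AA hg k 0 (Dep.const 0 1)
  simp only [one_mul] at h1
  have h2 : (fun m => ∫ f, AA p k m f ∂(coins p)) = fun _ => 0 := funext fun m => mean_AA hg k m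
  rw [h2] at h1
  exact tendsto_nhds_unique h1 tendsto_const_nhds

lemma mean_NN (hg : Good p κ Δ) (k : ℕ) : ∫ f, (NN k f : ℝ) ∂(coins p) =
    2 * k + ∫ f, dr p (NN k f) ∂(coins p) := by
  have h1 := mean_Ai hg k
  unfold Ai at h1
  have e1 := integral_sub ((int_NN hg k).sub (integrable_const (2 * (k : ℝ)))) (int_dr hg k)
  have e2 := integral_sub (int_NN hg k) (integrable_const (μ := coins p) (2 * (k : ℝ)))
  simp only [Pi.sub_apply] at e1
  rw [e1, e2, integral_const] at h1
  simp at h1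
  linarith

lemma VV_eq {k : ℕ} {f : ℕ → Bool} (h : ∃ j, k ≤ fai f j) :
    (VV k f : ℝ) - k = Ai p k f + dr p (NN k f) := by
  unfold VV Ai
  rw [Nat.cast_sub (le_NN h)]
  ring

/-- JOB J1, first part -/
theorem mean : S_mean := by
  intro p κ Δ hg
  refine ⟨ae_all_iff.mpr fun k => ae_fin hg k, meas_NN, int_NN hg, fun k => ?_⟩
  have h1 : ∫ f, ((VV k f : ℝ) - k) ∂(coins p) = ∫ f, (Ai p k f + dr p (NN k f)) ∂(coins p) := by
    apply integral_congr_ae
    filter_upwards [ae_fin hg k] with f hf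
    exact VV_eq hf
  rw [h1, integral_add (int_Ai hg k) (int_dr hg k), mean_Ai hg, zero_add]

/-! ### the second moment -/

lemma int_AA_sq (p : ℕ → ℝ) (k m : ℕ) : Integrable (fun f => AA p k m f ^ 2) (coins p) := by
  have := ((dep_AA p k m).mul (dep_AA p k m)).integrable p
  refine this.congr (ae_of_all _ fun f => ?_)
  show AA p k m f * AA p k m f = AA p k m f ^ 2
  ring

lemma var_le (hg : Good p κ Δ) (k m : ℕ) : ∫ f, AA p k m f ^ 2 ∂(coins p) ≤ 2 * k + Δ := by
  rw [var_AA hg]
  refine le_trans (integral_mono ?_ ((dep_TT k m).integrable p) fun f => ?_) (int_TT_le hg k m)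
  · apply integrable_finsetSum
    intro i _
    exact ((dep_II k i).integrable p).mul_const _
  · unfold TT
    apply Finset.sum_le_sum
    intro i _
    have h1 := II_nonneg k i f
    have h2 := sq_nonneg (2 * p i - 1)
    nlinarith

lemma var_ge (hg : Good p κ Δ) (k m : ℕ) :
    ∫ f, TT k m f ∂(coins p) - Δ ≤ ∫ f, AA p k m f ^ 2 ∂(coins p) := by
  rw [var_AA hg]
  have h0 : ∫ f, TT k m f ∂(coins p) - Δ = ∫ f, (TT k m f - Δ) ∂(coins p) := by
    rw [integral_sub ((dep_TT k m).integrable p) (integrable_const _), integral_const]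
    simp
  rw [h0]
  refine integral_mono (((dep_TT k m).integrable p).sub (integrable_const _)) ?_ fun f => ?_
  · apply integrable_finsetSum
    intro i _
    exact ((dep_II k i).integrable p).mul_const _
  · have h1 := hg.sq_le m
    have h2 : ∑ i ∈ Finset.range m, II k i f * (2 * p i - 1) ^ 2 ≤
        ∑ i ∈ Finset.range m, (2 * p i - 1) ^ 2 := by
      apply Finset.sum_le_sum
      intro i _
      have h3 := II_le k i f
      have h4 := sq_nonneg (2 * p i - 1)
      nlinarith
    have h5 : ∑ i ∈ Finset.range m, II k i f * (1 - (2 * p i - 1) ^ 2) =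
        TT k m f - ∑ i ∈ Finset.range m, II k i f * (2 * p i - 1) ^ 2 := by
      unfold TT
      rw [← Finset.sum_sub_distrib]
      apply Finset.sum_congr rfl
      intro i _
      ring
    show TT k m f - Δ ≤ ∑ i ∈ Finset.range m, II k i f * (1 - (2 * p i - 1) ^ 2)
    rw [h5]
    linarith

lemma lint_Ai_sq (hg : Good p κ Δ) (k : ℕ) :
    ∫⁻ f, ENNReal.ofReal (Ai p k f ^ 2) ∂(coins p) ≤ ENNReal.ofReal (2 * k + Δ) := by
  have h1 : ∀ᵐ f ∂(coins p), ENNReal.ofReal (Ai p k f ^ 2) ≤
      liminf (fun m => ENNReal.ofReal (AA p k m f ^ 2)) atTop := by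
    filter_upwards [ae_fin hg k] with f hf
    have h2 : Tendsto (fun m => ENNReal.ofReal (AA p k m f ^ 2)) atTop
        (𝓝 (ENNReal.ofReal (Ai p k f ^ 2))) := by
      apply tendsto_const_nhds.congr'
      filter_upwards [eventually_ge_atTop (NN k f)] with m hm
      rw [AA_ge hf hm]
    rw [h2.liminf_eq]
  refine (lintegral_mono_ae h1).trans ?_
  refine (lintegral_liminf_le fun m =>
    ENNReal.measurable_ofReal.comp ((dep_AA p k m).measurable.pow_const 2)).trans ?_
  have h3 : ∀ m, ∫⁻ f, ENNReal.ofReal (AA p k m f ^ 2) ∂(coins p) ≤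
      ENNReal.ofReal (2 * k + Δ) := by
    intro m
    rw [← ofReal_integral_eq_lintegral_ofReal (int_AA_sq p k m)
      (ae_of_all _ fun f => sq_nonneg _)]
    exact ENNReal.ofReal_le_ofReal (var_le hg k m)
  refine (liminf_le_liminf (Eventually.of_forall h3)).trans ?_
  rw [liminf_const]

lemma int_Ai_sq (hg : Good p κ Δ) (k : ℕ) : Integrable (fun f => Ai p k f ^ 2) (coins p) := by
  refine ⟨((meas_Ai p k).pow_const 2).aestronglyMeasurable, ?_⟩
  rw [hasFiniteIntegral_iff_ofReal (ae_of_all _ fun f => sq_nonneg _)]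
  exact (lint_Ai_sq hg k).trans_lt ENNReal.ofReal_lt_top

lemma Ai_sq_le (hg : Good p κ Δ) (k : ℕ) : ∫ f, Ai p k f ^ 2 ∂(coins p) ≤ 2 * k + Δ := by
  have h1 := lint_Ai_sq hg k
  rw [← ofReal_integral_eq_lintegral_ofReal (int_Ai_sq hg k)
    (ae_of_all _ fun f => sq_nonneg _)] at h1
  have h2 : 0 ≤ 2 * (k : ℝ) + Δ := by
    have := Good.Δ_nonneg hg
    positivity
  exact (ENNReal.ofReal_le_ofReal_iff h2).mp h1

lemma Ai_sq_ge (hg : Good p κ Δ) (k : ℕ) : 2 * k - Δ ≤ ∫ f, Ai p k f ^ 2 ∂(coins p) := by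
  -- `E A_m A_∞ = E A_m²`
  have h1 : ∀ m, ∫ f, AA p k m f * Ai p k f ∂(coins p) = ∫ f, AA p k m f ^ 2 ∂(coins p) := by
    intro m
    have h2 := lim_AA hg k m (dep_AA p k m)
    refine tendsto_nhds_unique h2 ?_
    apply tendsto_const_nhds.congr'
    filter_upwards [eventually_ge_atTop m] with m' hm'
    have h3 := orth hg k m m' hm' (dep_AA p k m)
    have h4 : ∀ f, AA p k m f * AA p k m' f =
        AA p k m f ^ 2 + AA p k m f * (AA p k m' f - AA p k m f) := fun f => by ring
    simp_rw [h4]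
    rw [integral_add (int_AA_sq p k m), h3, add_zero]
    exact (((dep_AA p k m).mono hm').mul
      ((dep_AA p k m').sub ((dep_AA p k m).mono hm'))).integrable p
  have h5 : ∀ m, ∫ f, AA p k m f ^ 2 ∂(coins p) ≤ ∫ f, Ai p k f ^ 2 ∂(coins p) := by
    intro m
    obtain ⟨C, hC⟩ := (dep_AA p k m).bdd
    have i1 : Integrable (fun f => AA p k m f * Ai p k f) (coins p) :=
      (int_Ai hg k).bdd_mul (c := C) (dep_AA p k m).measurable.aestronglyMeasurable
        (ae_of_all _ fun f => by rw [Real.norm_eq_abs]; exact hC f)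
    have h6 : ∫ f, (2 * (AA p k m f * Ai p k f) - AA p k m f ^ 2) ∂(coins p) ≤
        ∫ f, Ai p k f ^ 2 ∂(coins p) := by
      refine integral_mono ((i1.const_mul 2).sub (int_AA_sq p k m)) (int_Ai_sq hg k) fun f => ?_
      show 2 * (AA p k m f * Ai p k f) - AA p k m f ^ 2 ≤ Ai p k f ^ 2
      nlinarith [sq_nonneg (AA p k m f - Ai p k f)]
    rw [integral_sub (i1.const_mul 2) (int_AA_sq p k m), integral_const_mul, h1] at h6
    linarith
  -- `E T_m → E N`
  have h7 : Tendsto (fun m => ∫ f, TT k m f ∂(coins p)) atTop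
      (𝓝 (∫ f, (NN k f : ℝ) ∂(coins p))) := by
    refine tendsto_integral_of_dominated_convergence (fun f => (NN k f : ℝ)) ?_ (int_NN hg k) ?_ ?_
    · intro m
      exact (dep_TT k m).measurable.aestronglyMeasurable
    · intro m
      filter_upwards [ae_fin hg k] with f hf
      rw [Real.norm_eq_abs, abs_of_nonneg (TT_nonneg k m f)]
      exact TT_le_NN hf m
    · filter_upwards [ae_fin hg k] with f hf
      apply tendsto_const_nhds.congr'
      filter_upwards [eventually_ge_atTop (NN k f)] with m hm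
      rw [TT_ge hf hm]
  have h8 : ∫ f, (NN k f : ℝ) ∂(coins p) - Δ ≤ ∫ f, Ai p k f ^ 2 ∂(coins p) :=
    le_of_tendsto' (h7.sub_const Δ) fun m => (var_ge hg k m).trans (h5 m)
  rw [mean_NN hg] at h8
  have h9 : 0 ≤ ∫ f, dr p (NN k f) ∂(coins p) := integral_nonneg fun f => hg.dr_nonneg _
  linarith

/-- JOB J1, second part -/
theorem second : S_second := by
  intro p κ Δ hg
  have hΔ := Good.Δ_nonneg hg
  refine ⟨5 * Δ + Δ ^ 2 + 2 * Δ * √(Δ + 1), by positivity, fun k => ?_⟩
  set s : ℝ := √(2 * k + Δ + 1) with hs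
  have hs1 : s ^ 2 = 2 * k + Δ + 1 := Real.sq_sqrt (by positivity)
  have hs0 : 0 < s := Real.sqrt_pos.mpr (by positivity)
  -- the remainder
  set R : (ℕ → Bool) → ℝ := fun f => 2 * Ai p k f * dr p (NN k f) + dr p (NN k f) ^ 2 with hR
  have hmR : Measurable R :=
    (((meas_Ai p k).const_mul 2).mul (meas_dr p k)).add ((meas_dr p k).pow_const 2)
  have hRle : ∀ f, |R f| ≤ Δ * (Ai p k f ^ 2 / s + s) + Δ ^ 2 := by
    intro f
    have h1 := hg.dr_nonneg (NN k f)
    have h2 := hg.dr_le (NN k f)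
    have h3 : |2 * Ai p k f * dr p (NN k f)| ≤ Δ * (Ai p k f ^ 2 / s + s) := by
      rw [abs_mul, abs_of_nonneg h1, abs_mul, abs_two]
      have h4 : 2 * |Ai p k f| ≤ Ai p k f ^ 2 / s + s := by
        have h5 : Ai p k f ^ 2 / s + s - 2 * |Ai p k f| = (|Ai p k f| - s) ^ 2 / s := by
          rw [← sq_abs]
          field_simp
          ring
        have h6 : 0 ≤ (|Ai p k f| - s) ^ 2 / s := by positivity
        linarith
      have h7 : 0 ≤ Ai p k f ^ 2 / s + s := by positivity
      calc 2 * |Ai p k f| * dr p (NN k f) ≤ (Ai p k f ^ 2 / s + s) * Δ :=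
            mul_le_mul h4 h2 h1 h7
        _ = _ := by ring
    have h8 : |dr p (NN k f) ^ 2| ≤ Δ ^ 2 := by
      rw [abs_of_nonneg (sq_nonneg _)]
      exact pow_le_pow_left₀ h1 h2 2
    exact (abs_add_le _ _).trans (add_le_add h3 h8)
  have iB : Integrable (fun f => Δ * (Ai p k f ^ 2 / s + s) + Δ ^ 2) (coins p) :=
    ((((int_Ai_sq hg k).div_const s).add (integrable_const s)).const_mul Δ).add
      (integrable_const _)
  have iR : Integrable R (coins p) :=
    iB.mono' hmR.aestronglyMeasurable (ae_of_all _ fun f => by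
      rw [Real.norm_eq_abs]; exact hRle f)
  have hsq : ∀ᵐ f ∂(coins p), Ai p k f ^ 2 + R f = ((VV k f : ℝ) - k) ^ 2 := by
    filter_upwards [ae_fin hg k] with f hf
    rw [VV_eq (p := p) hf]
    show Ai p k f ^ 2 + (2 * Ai p k f * dr p (NN k f) + dr p (NN k f) ^ 2) = _
    ring
  refine ⟨((int_Ai_sq hg k).add iR).congr hsq, ?_⟩
  rw [← integral_congr_ae hsq, integral_add (int_Ai_sq hg k) iR]
  have h1 := Ai_sq_le hg k
  have h2 := Ai_sq_ge hg k
  have h3 : |∫ f, R f ∂(coins p)| ≤ 2 * Δ * s + Δ ^ 2 := by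
    refine (abs_integral_le_integral_abs).trans ?_
    refine (integral_mono iR.abs iB hRle).trans ?_
    have e1 := integral_add ((((int_Ai_sq hg k).div_const s).add
      (integrable_const s)).const_mul Δ) (integrable_const (μ := coins p) (Δ ^ 2))
    have e2 := integral_add ((int_Ai_sq hg k).div_const s) (integrable_const (μ := coins p) s)
    simp only [Pi.add_apply] at e1
    rw [e1, integral_const_mul, e2, integral_div, integral_const, integral_const]
    simp only [probReal_univ, one_smul]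
    have h4 : (∫ f, Ai p k f ^ 2 ∂(coins p)) / s ≤ s := by
      rw [div_le_iff₀ hs0, ← sq, hs1]
      linarith
    nlinarith
  have h5 : s ≤ 2 * √k + √(Δ + 1) := by
    rw [hs]
    apply Real.sqrt_le_iff.mpr
    refine ⟨by positivity, ?_⟩
    have h6 : √(k : ℝ) ^ 2 = k := Real.sq_sqrt (Nat.cast_nonneg _)
    have h7 : √(Δ + 1) ^ 2 = Δ + 1 := Real.sq_sqrt (by positivity)
    have h8 : 0 ≤ √(k : ℝ) * √(Δ + 1) := by positivity
    have h9 : (0 : ℝ) ≤ k := Nat.cast_nonneg _
    nlinarith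
  have h6 : 0 ≤ √(k : ℝ) := Real.sqrt_nonneg _
  have h7 : 0 ≤ √(Δ + 1) := Real.sqrt_nonneg _
  have h8 : 2 * Δ * s ≤ 2 * Δ * (2 * √k + √(Δ + 1)) :=
    mul_le_mul_of_nonneg_left h5 (by positivity)
  have h9 : 0 ≤ Δ * √(Δ + 1) * √(k : ℝ) := by positivity
  have h10 : 0 ≤ Δ ^ 2 * √(k : ℝ) := by positivity
  have h11 : 0 ≤ Δ * √(k : ℝ) := by positivity
  rw [abs_le] at h3 ⊢
  constructor <;> nlinarith

end

end Pool.Agent.Q190.Ce

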