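import Pool.Agent.Q294.Ce.Stm

/-!
# Moments: orthogonality and deterministic facts
-/

set_option autoImplicit false

namespace Pool.Agent.Q190.Ce

open MeasureTheory ProbabilityTheory Filter Topology Finset
open _root_.Q294.Cookie (suc fai fai_zero fai_succ)
open Pool.Agent.Q294.Ce

noncomputable section

/-- `Y` depends only on the first `i` coins -/
def Dep (i : ℕ) (Y : (ℕ → Bool) → ℝ) : Prop := ∀ f g, (∀ j < i, f j = g j) → Y f = Y g

lemma Dep.mono {i j : ℕ} (h : i ≤ j) {Y : (ℕ → Bool) → ℝ} (hY : Dep i Y) : Dep j Y :=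
  fun f g hfg => hY f g fun l hl => hfg l (by omega)

lemma Dep.factor {i : ℕ} {Y : (ℕ → Bool) → ℝ} (hY : Dep i Y) :
    ∃ g : ((j : Finset.range i) → Bool) → ℝ, ∀ f, Y f = g (fun j => f j) := by
  refine ⟨fun r => Y (fun j => if h : j ∈ Finset.range i then r ⟨j, h⟩ else true), fun f => ?_⟩
  apply hY
  intro j hj
  have : j ∈ Finset.range i := Finset.mem_range.mpr hj
  simp [this]

lemma Dep.measurable {i : ℕ} {Y : (ℕ → Bool) → ℝ} (hY : Dep i Y) : Measurable Y := by
  obtain ⟨g, hg⟩ := hY.factor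
  have h1 : Y = fun f => g (fun j : Finset.range i => f j) := funext hg
  rw [h1]
  exact (Measurable.of_discrete (f := g)).comp
    (measurable_pi_iff.mpr fun j => measurable_pi_apply _)

lemma Dep.bdd {i : ℕ} {Y : (ℕ → Bool) → ℝ} (hY : Dep i Y) : ∃ C : ℝ, ∀ f, |Y f| ≤ C := by
  obtain ⟨g, hg⟩ := hY.factor
  refine ⟨∑ r, |g r|, fun f => ?_⟩
  rw [hg]
  exact Finset.single_le_sum (f := fun r => |g r|) (fun r _ => abs_nonneg _) (Finset.mem_univ _)

lemma Dep.integrable {i : ℕ} {Y : (ℕ → Bool) → ℝ} (hY : Dep i Y) (p : ℕ → ℝ) :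
    Integrable Y (coins p) := by
  obtain ⟨C, hC⟩ := hY.bdd
  exact Integrable.of_bound hY.measurable.aestronglyMeasurable C
    (ae_of_all _ fun f => by rw [Real.norm_eq_abs]; exact hC f)

lemma Dep.add {i : ℕ} {Y Z : (ℕ → Bool) → ℝ} (hY : Dep i Y) (hZ : Dep i Z) :
    Dep i (fun f => Y f + Z f) := fun f g h => by
  show Y f + Z f = Y g + Z g
  rw [hY f g h, hZ f g h]

lemma Dep.sub {i : ℕ} {Y Z : (ℕ → Bool) → ℝ} (hY : Dep i Y) (hZ : Dep i Z) :
    Dep i (fun f => Y f - Z f) := fun f g h => by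
  show Y f - Z f = Y g - Z g
  rw [hY f g h, hZ f g h]

lemma Dep.mul {i : ℕ} {Y Z : (ℕ → Bool) → ℝ} (hY : Dep i Y) (hZ : Dep i Z) :
    Dep i (fun f => Y f * Z f) := fun f g h => by
  show Y f * Z f = Y g * Z g
  rw [hY f g h, hZ f g h]

lemma Dep.sum {i : ℕ} {s : Finset ℕ} {Y : ℕ → (ℕ → Bool) → ℝ} (hY : ∀ j ∈ s, Dep i (Y j)) :
    Dep i (fun f => ∑ j ∈ s, Y j f) := fun f g h => by
  show ∑ j ∈ s, Y j f = ∑ j ∈ s, Y j g
  exact Finset.sum_congr rfl fun j hj => hY j hj f g h

lemma Dep.const (i : ℕ) (c : ℝ) : Dep i (fun _ => c) := fun _ _ _ => rfl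

lemma Dep.coord {i j : ℕ} (h : j < i) (a : Bool → ℝ) : Dep i (fun f => a (f j)) := fun f g hfg => by
  show a (f j) = a (g j)
  rw [hfg j h]

lemma integral_bern (a : ℝ) (h : Bool → ℝ) :
    ∫ b, h b ∂(bern a) = cl a * h true + (1 - cl a) * h false := by
  unfold bern
  rw [integral_add_measure, integral_smul_measure, integral_smul_measure, integral_dirac,
    integral_dirac, ENNReal.toReal_ofReal (cl_nonneg a),
    ENNReal.toReal_ofReal (sub_nonneg.2 (cl_le_one a)), smul_eq_mul, smul_eq_mul]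
  · exact (Integrable.of_finite (μ := Measure.dirac true)).smul_measure ENNReal.ofReal_ne_top
  · exact (Integrable.of_finite (μ := Measure.dirac false)).smul_measure ENNReal.ofReal_ne_top

lemma indep (p : ℕ → ℝ) {i : ℕ} {Y : (ℕ → Bool) → ℝ} (hY : Dep i Y) (h : Bool → ℝ) :
    ∫ f, Y f * h (f i) ∂(coins p) =
      (∫ f, Y f ∂(coins p)) * (cl (p i) * h true + (1 - cl (p i)) * h false) := by
  obtain ⟨g, hg⟩ := hY.factor
  have h0 : iIndepFun (fun (i : ℕ) (u : ℕ → Bool) => u i) (coins p) :=
    iIndepFun_infinitePi (P := fun j : ℕ => bern (p j)) (X := fun _ x => x)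
      (fun _ => measurable_id)
  have h2 := h0.indepFun_finset (Finset.range i) {i} (by simp) (fun i => measurable_pi_apply i)
  have h3 : IndepFun (fun (u : ℕ → Bool) (j : Finset.range i) => u j) (fun u : ℕ → Bool => u i)
      (coins p) :=
    h2.comp (φ := id) (ψ := fun y : (({i} : Finset ℕ) → Bool) => y ⟨i, by simp⟩) measurable_id
      (measurable_pi_apply _)
  have h4 : IndepFun Y (fun u : ℕ → Bool => h (u i)) (coins p) := by
    have h5 := h3.comp (φ := g) (ψ := h) Measurable.of_discrete Measurable.of_discrete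
    have h6 : Y = g ∘ fun (u : ℕ → Bool) (j : Finset.range i) => u j := funext hg
    rw [h6]
    exact h5
  have hm : Measurable (fun u : ℕ → Bool => h (u i)) :=
    (Measurable.of_discrete (f := h)).comp (measurable_pi_apply i)
  have h7 := h4.integral_mul_eq_mul_integral hY.measurable.aestronglyMeasurable
    hm.aestronglyMeasurable
  have h8 : ∫ f, h (f i) ∂(coins p) = ∫ b, h b ∂(bern (p i)) := by
    have h9 : (coins p).map (fun f => f i) = bern (p i) := by
      unfold coins
      exact Measure.infinitePi_map_eval (fun j => bern (p j)) i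
    rw [← h9, integral_map (measurable_pi_apply i).aemeasurable
      (Measurable.of_discrete (f := h)).aestronglyMeasurable]
  rw [integral_bern] at h8
  rw [← h8]
  exact h7

/-- the step -/
def ep (b : Bool) : ℝ := if b = true then 1 else -1

/-- indicator of `fai f i < k` -/
def II (k : ℕ) (i : ℕ) (f : ℕ → Bool) : ℝ := if fai f i < k then 1 else 0

def TT (k : ℕ) (m : ℕ) (f : ℕ → Bool) : ℝ := ∑ i ∈ Finset.range m, II k i f

def AA (p : ℕ → ℝ) (k : ℕ) (m : ℕ) (f : ℕ → Bool) : ℝ :=
  ∑ i ∈ Finset.range m, II k i f * (ep (f i) - (2 * p i - 1))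

lemma fai_congr {i : ℕ} {f g : ℕ → Bool} (h : ∀ j < i, f j = g j) : fai f i = fai g i := by
  unfold fai
  congr 1
  apply Finset.filter_congr
  intro j hj
  rw [Finset.mem_range] at hj
  rw [h j hj]

lemma fai_mono (f : ℕ → Bool) : Monotone (fai f) :=
  monotone_nat_of_le_succ fun j => by rw [fai_succ]; omega

lemma dep_II (k i : ℕ) : Dep i (II k i) := fun f g h => by
  unfold II
  rw [fai_congr h]

lemma dep_TT (k m : ℕ) : Dep m (TT k m) :=
  Dep.sum fun i hi => (dep_II k i).mono (by rw [Finset.mem_range] at hi; omega)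

lemma dep_AA (p : ℕ → ℝ) (k m : ℕ) : Dep m (AA p k m) :=
  Dep.sum fun i hi => by
    rw [Finset.mem_range] at hi
    exact ((dep_II k i).mono (by omega)).mul
      (Dep.coord hi (fun b => ep b - (2 * p i - 1)))

lemma II_sq (k i : ℕ) (f : ℕ → Bool) : II k i f * II k i f = II k i f := by
  unfold II; split_ifs <;> norm_num

lemma II_nonneg (k i : ℕ) (f : ℕ → Bool) : 0 ≤ II k i f := by
  unfold II; split_ifs <;> norm_num

lemma II_le (k i : ℕ) (f : ℕ → Bool) : II k i f ≤ 1 := by
  unfold II; split_ifs <;> norm_num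

lemma TT_succ (k m : ℕ) (f : ℕ → Bool) : TT k (m + 1) f = TT k m f + II k m f :=
  Finset.sum_range_succ _ _

lemma AA_succ (p : ℕ → ℝ) (k m : ℕ) (f : ℕ → Bool) :
    AA p k (m + 1) f = AA p k m f + II k m f * (ep (f m) - (2 * p m - 1)) :=
  Finset.sum_range_succ _ _

lemma TT_mono (k : ℕ) (f : ℕ → Bool) : Monotone fun m => TT k m f :=
  monotone_nat_of_le_succ fun m => by
    show TT k m f ≤ TT k (m + 1) f
    rw [TT_succ]
    have := II_nonneg k m f
    linarith

lemma TT_nonneg (k m : ℕ) (f : ℕ → Bool) : 0 ≤ TT k m f :=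
  Finset.sum_nonneg fun _ _ => II_nonneg _ _ _

lemma TT_of_lt {k m : ℕ} {f : ℕ → Bool} (h : fai f m < k) : TT k (m + 1) f = ((m + 1 : ℕ) : ℝ) := by
  unfold TT
  rw [Finset.sum_congr rfl (g := fun _ => (1 : ℝ))]
  · simp
  · intro i hi
    rw [Finset.mem_range] at hi
    unfold II
    rw [if_pos]
    exact lt_of_le_of_lt (fai_mono f (by omega)) h

/-- `Σ I_i d_i = dr (T_m)`, with a natural number `T_m` -/
lemma exists_TT (p : ℕ → ℝ) (k m : ℕ) (f : ℕ → Bool) : ∃ t : ℕ, t ≤ m ∧ TT k m f = t ∧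
    ∑ i ∈ Finset.range m, II k i f * (2 * p i - 1) = dr p t := by
  induction m with
  | zero => exact ⟨0, le_rfl, by simp [TT], by simp [dr]⟩
  | succ m ih =>
    obtain ⟨t, ht, h1, h2⟩ := ih
    by_cases h : fai f m < k
    · have h3 := TT_of_lt h
      refine ⟨m + 1, le_rfl, h3, ?_⟩
      unfold dr
      apply Finset.sum_congr rfl
      intro i hi
      rw [Finset.mem_range] at hi
      unfold II
      rw [if_pos, one_mul]
      exact lt_of_le_of_lt (fai_mono f (by omega)) h
    · have h3 : II k m f = 0 := by unfold II; rw [if_neg h]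
      refine ⟨t, by omega, by rw [TT_succ, h1, h3, add_zero], ?_⟩
      rw [Finset.sum_range_succ, h2, h3, zero_mul, add_zero]

lemma sum_II_ep (k m : ℕ) (f : ℕ → Bool) : ∑ i ∈ Finset.range m, II k i f * ep (f i) =
    TT k m f - 2 * (min (fai f m) k : ℕ) := by
  induction m with
  | zero => simp [TT, fai_zero]
  | succ m ih =>
    rw [Finset.sum_range_succ, ih, TT_succ, fai_succ]
    by_cases h : fai f m < k
    · have h3 : II k m f = 1 := by unfold II; rw [if_pos h]
      rw [h3, min_eq_left h.le]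
      rcases hb : f m with _ | _
      · simp only [if_true, ep]
        rw [min_eq_left (by omega)]
        push_cast
        simp
        ring
      · simp only [ep]
        simp only [Bool.true_eq_false, if_false, add_zero, if_true]
        rw [min_eq_left h.le]
        ring
    · have h3 : II k m f = 0 := by unfold II; rw [if_neg h]
      rw [h3, min_eq_right (by omega), min_eq_right (by split_ifs <;> omega)]
      ring

lemma AA_eq (p : ℕ → ℝ) (k m : ℕ) (f : ℕ → Bool) : ∃ t : ℕ, t ≤ m ∧ TT k m f = t ∧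
    AA p k m f = TT k m f - 2 * (min (fai f m) k : ℕ) - dr p t := by
  obtain ⟨t, h1, h2, h3⟩ := exists_TT p k m f
  refine ⟨t, h1, h2, ?_⟩
  unfold AA
  rw [← h3, ← sum_II_ep, ← Finset.sum_sub_distrib]
  apply Finset.sum_congr rfl
  intro i _
  ring

variable {p : ℕ → ℝ} {κ Δ : ℝ}

lemma Good.cl (h : Good p κ Δ) (i : ℕ) : Pool.Agent.Q294.Ce.cl (p i) = p i :=
  cl_eq (by have := h.lo i; have := h.pos; linarith) (by have := h.hi i; have := h.pos; linarith)

lemma Good.Δ_nonneg (h : Good p κ Δ) : 0 ≤ Δ := (h.dr_nonneg 0).trans (h.dr_le 0)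

lemma mean_step (h : Good p κ Δ) {m : ℕ} {Y : (ℕ → Bool) → ℝ} (hY : Dep m Y) :
    ∫ f, Y f * (ep (f m) - (2 * p m - 1)) ∂(coins p) = 0 := by
  have h1 := indep p hY (fun b => ep b - (2 * p m - 1))
  rw [h1, Good.cl h]
  have : p m * (ep true - (2 * p m - 1)) + (1 - p m) * (ep false - (2 * p m - 1)) = 0 := by
    unfold ep
    simp
    ring
  rw [this, mul_zero]

lemma var_step (h : Good p κ Δ) {m : ℕ} {Y : (ℕ → Bool) → ℝ} (hY : Dep m Y) :
    ∫ f, Y f * (ep (f m) - (2 * p m - 1)) ^ 2 ∂(coins p) =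
      (∫ f, Y f ∂(coins p)) * (1 - (2 * p m - 1) ^ 2) := by
  have h1 := indep p hY (fun b => (ep b - (2 * p m - 1)) ^ 2)
  rw [h1, Good.cl h]
  congr 1
  unfold ep
  simp
  ring

lemma mean_AA (h : Good p κ Δ) (k m : ℕ) : ∫ f, AA p k m f ∂(coins p) = 0 := by
  induction m with
  | zero => simp [AA]
  | succ m ih =>
    have h1 : ∀ f, AA p k (m + 1) f = AA p k m f + II k m f * (ep (f m) - (2 * p m - 1)) :=
      AA_succ p k m
    simp_rw [h1]
    rw [integral_add ((dep_AA p k m).integrable p), ih, mean_step h (dep_II k m), add_zero]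
    exact (((dep_II k m).mono (Nat.le_succ m)).mul (Dep.coord (Nat.lt_succ_self m)
      (fun b => ep b - (2 * p m - 1)))).integrable p

/-- the increments are orthogonal -/
lemma orth (h : Good p κ Δ) (k l m : ℕ) (hlm : l ≤ m) {Y : (ℕ → Bool) → ℝ} (hY : Dep l Y) :
    ∫ f, Y f * (AA p k m f - AA p k l f) ∂(coins p) = 0 := by
  induction m, hlm using Nat.le_induction with
  | base => simp
  | succ m hlm ih =>
    have h1 : ∀ f, Y f * (AA p k (m + 1) f - AA p k l f) = Y f * (AA p k m f - AA p k l f) +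
        (Y f * II k m f) * (ep (f m) - (2 * p m - 1)) := by
      intro f; rw [AA_succ]; ring
    simp_rw [h1]
    have hd : Dep m (fun f => Y f * II k m f) := (hY.mono hlm).mul (dep_II k m)
    rw [integral_add, ih, mean_step h hd, add_zero]
    · exact ((hY.mono hlm).mul ((dep_AA p k m).sub ((dep_AA p k l).mono hlm))).integrable p
    · exact ((hd.mono (Nat.le_succ m)).mul (Dep.coord (Nat.lt_succ_self m)
        (fun b => ep b - (2 * p m - 1)))).integrable p

lemma var_AA (h : Good p κ Δ) (k m : ℕ) : ∫ f, AA p k m f ^ 2 ∂(coins p) =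
    ∫ f, (∑ i ∈ Finset.range m, II k i f * (1 - (2 * p i - 1) ^ 2)) ∂(coins p) := by
  induction m with
  | zero => simp [AA]
  | succ m ih =>
    have h1 : ∀ f, AA p k (m + 1) f ^ 2 = AA p k m f ^ 2 +
        (2 * AA p k m f * II k m f) * (ep (f m) - (2 * p m - 1)) +
        II k m f * (ep (f m) - (2 * p m - 1)) ^ 2 := by
      intro f
      rw [AA_succ]
      have := II_sq k m f
      linear_combination (ep (f m) - (2 * p m - 1)) ^ 2 * this
    have hd : Dep m (fun f => 2 * AA p k m f * II k m f) :=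
      ((Dep.const m 2).mul (dep_AA p k m)).mul (dep_II k m)
    have i1 : Integrable (fun f => AA p k m f ^ 2) (coins p) := by
      have := ((dep_AA p k m).mul (dep_AA p k m)).integrable p
      refine this.congr (ae_of_all _ fun f => ?_)
      show AA p k m f * AA p k m f = AA p k m f ^ 2
      ring
    have i2 : Integrable (fun f => (2 * AA p k m f * II k m f) * (ep (f m) - (2 * p m - 1)))
        (coins p) := ((hd.mono (Nat.le_succ m)).mul (Dep.coord (Nat.lt_succ_self m)
        (fun b => ep b - (2 * p m - 1)))).integrable p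
    have i3 : Integrable (fun f => II k m f * (ep (f m) - (2 * p m - 1)) ^ 2) (coins p) :=
      (((dep_II k m).mono (Nat.le_succ m)).mul (Dep.coord (Nat.lt_succ_self m)
        (fun b => (ep b - (2 * p m - 1)) ^ 2))).integrable p
    have i4 : Integrable (fun f => ∑ i ∈ Finset.range m, II k i f * (1 - (2 * p i - 1) ^ 2))
        (coins p) := by
      apply integrable_finsetSum
      intro i _
      exact ((dep_II k i).integrable p).mul_const _
    have i5 : Integrable (fun f => II k m f * (1 - (2 * p m - 1) ^ 2)) (coins p) :=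
      ((dep_II k m).integrable p).mul_const _
    simp_rw [h1, Finset.sum_range_succ]
    have e1 := integral_add (i1.add i2) i3
    have e2 := integral_add i1 i2
    have e3 := integral_add i4 i5
    simp only [Pi.add_apply] at e1
    rw [e1, e2, e3, ih, mean_step h hd, add_zero, var_step h (dep_II k m), integral_mul_const]

end

end Pool.Agent.Q190.Ce
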